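import Mathlib

set_option autoImplicit false

namespace Pool.Agent.Results.MP_cb8e45_nt.CompanionLocal

/-- The companion Lucas sequence `V_0 = 2, V_1 = P, V_{n+2} = P V_{n+1} - Q V_n`. -/
def lucasV (P Q : ℤ) : ℕ → ℤ
  | 0 => 2
  | 1 => P
  | n + 2 => P * lucasV P Q (n + 1) - Q * lucasV P Q n

/-- A nonzero integer is powerful if the square of every prime dividing it divides it. -/
def IsPowerful (m : ℤ) : Prop :=
  m ≠ 0 ∧ ∀ p : ℕ, p.Prime → (p : ℤ) ∣ m → (p : ℤ) ^ 2 ∣ m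

theorem mod_sq (P Q : ℤ) (k : ℕ) :
    P ^ 2 ∣ lucasV P Q (2 * k) - 2 * (-Q) ^ k ∧
      P ^ 2 ∣ lucasV P Q (2 * k + 1) - (2 * k + 1) * (-Q) ^ k * P := by
  induction k with
  | zero => simp [lucasV]
  | succ k ih =>
    obtain ⟨⟨x, hx⟩, ⟨y, hy⟩⟩ := ih
    have h1 : lucasV P Q (2 * (k + 1))
        = P * lucasV P Q (2 * k + 1) - Q * lucasV P Q (2 * k) := by
      rw [show 2 * (k + 1) = 2 * k + 2 by ring]; rfl
    have h2 : lucasV P Q (2 * (k + 1) + 1)
        = P * lucasV P Q (2 * (k + 1)) - Q * lucasV P Q (2 * k + 1) := by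
      rw [show 2 * (k + 1) + 1 = (2 * k + 1) + 2 by ring, show 2 * (k + 1) = 2 * k + 1 + 1 by ring]
      rfl
    have hx' : lucasV P Q (2 * k) = P ^ 2 * x + 2 * (-Q) ^ k := by linarith
    have hy' : lucasV P Q (2 * k + 1) = P ^ 2 * y + (2 * k + 1) * (-Q) ^ k * P := by linarith
    have h3 : lucasV P Q (2 * (k + 1)) - 2 * (-Q) ^ (k + 1)
        = P ^ 2 * (P * y + (2 * k + 1) * (-Q) ^ k - Q * x) := by
      rw [h1, hx', hy']; ring
    refine ⟨⟨_, h3⟩, ⟨P * (P * y + (2 * k + 1) * (-Q) ^ k - Q * x) - Q * y, ?_⟩⟩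
    have h4 : lucasV P Q (2 * (k + 1))
        = P ^ 2 * (P * y + (2 * k + 1) * (-Q) ^ k - Q * x) + 2 * (-Q) ^ (k + 1) := by linarith
    rw [h2, h4, hy']
    push_cast
    ring

/-- odd index: every prime exactly dividing `P` divides `n`. -/
theorem odd_index (P Q : ℤ) (hPQ : IsCoprime P Q) (n : ℕ) (hn : Odd n)
    (h : IsPowerful (lucasV P Q n)) (p : ℕ) (hp : p.Prime) (hpP : (p : ℤ) ∣ P)
    (hpP2 : ¬ (p : ℤ) ^ 2 ∣ P) : p ∣ n := by
  obtain ⟨k, rfl⟩ := hn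
  have hp' : Prime (p : ℤ) := Nat.prime_iff_prime_int.mp hp
  have h1 := (mod_sq P Q k).2
  have hsq : (p : ℤ) ^ 2 ∣ P ^ 2 := pow_dvd_pow_of_dvd hpP 2
  have hpV : (p : ℤ) ∣ lucasV P Q (2 * k + 1) := by
    have h2 : (p : ℤ) ∣ lucasV P Q (2 * k + 1) - (2 * k + 1) * (-Q) ^ k * P :=
      (dvd_pow_self _ two_ne_zero).trans (hsq.trans h1)
    have h3 : (p : ℤ) ∣ (2 * k + 1) * (-Q) ^ k * P := Dvd.dvd.mul_left hpP _
    have := dvd_add h2 h3
    simpa using this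
  have hpV2 := h.2 p hp hpV
  have h4 : (p : ℤ) ^ 2 ∣ (2 * k + 1) * (-Q) ^ k * P := by
    have := dvd_sub hpV2 (hsq.trans h1)
    simpa using this
  obtain ⟨P', rfl⟩ := hpP
  have hp0 : (p : ℤ) ≠ 0 := hp'.ne_zero
  have h5 : (p : ℤ) ∣ (2 * k + 1) * (-Q) ^ k * P' := by
    have : (p : ℤ) * p ∣ p * ((2 * k + 1) * (-Q) ^ k * P') := by
      have e : (2 * (k : ℤ) + 1) * (-Q) ^ k * (p * P') = p * ((2 * k + 1) * (-Q) ^ k * P') := by ring
      rw [← e, ← pow_two]; exact h4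
    exact (mul_dvd_mul_iff_left hp0).mp this
  have hP' : ¬ (p : ℤ) ∣ P' := by
    intro hc
    apply hpP2
    rw [pow_two]
    exact mul_dvd_mul_left _ hc
  have hQ : ¬ (p : ℤ) ∣ -Q := by
    intro hc
    have hc' : (p : ℤ) ∣ Q := (dvd_neg).mp hc
    have := hPQ.isUnit_of_dvd' (Dvd.intro P' rfl) hc'
    exact hp'.not_isUnit this
  rcases hp'.dvd_or_dvd h5 with h6 | h6
  · rcases hp'.dvd_or_dvd h6 with h7 | h7
    · exact_mod_cast h7
    · exact absurd (hp'.dvd_of_dvd_pow h7) hQ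
  · exact absurd h6 hP'

theorem even_index (P Q : ℤ) (hPQ : IsCoprime P Q) (n : ℕ) (hn : Even n)
    (h : IsPowerful (lucasV P Q n)) : ¬ (2 : ℤ) ∣ P := by
  intro h2
  obtain ⟨k, hk⟩ := hn
  have hk' : n = 2 * k := by omega
  subst hk'
  have hQ : Odd (-Q) := by
    rw [← Int.not_even_iff_odd]
    intro hc
    have hc' : (2 : ℤ) ∣ Q := (dvd_neg).mp hc.two_dvd
    have := hPQ.isUnit_of_dvd' h2 hc'
    rw [Int.isUnit_iff] at this
    omega
  have hQk : Odd ((-Q) ^ k) := hQ.pow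
  have h1 := (mod_sq P Q k).1
  have h4 : (4 : ℤ) ∣ P ^ 2 := by
    have := pow_dvd_pow_of_dvd h2 2
    norm_num at this
    exact this
  have h5 : (4 : ℤ) ∣ lucasV P Q (2 * k) - 2 * (-Q) ^ k := h4.trans h1
  obtain ⟨m, hm⟩ := hQk
  have hV2 : (2 : ℤ) ∣ lucasV P Q (2 * k) := by omega
  have hV4 := h.2 2 Nat.prime_two (by exact_mod_cast hV2)
  have : (4 : ℤ) ∣ lucasV P Q (2 * k) := by
    have e : ((2 : ℕ) : ℤ) ^ 2 = 4 := by norm_num
    rw [e] at hV4; exact hV4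
  omega

/-- `P, Q` odd: the values of `V_n` modulo `4` at multiples of three. -/
theorem mod_four (P Q : ℤ) (hP : Odd P) (hQ : Odd Q) (k : ℕ) :
    lucasV P Q (6 * k) % 4 = 2 ∧ lucasV P Q (6 * k + 1) % 4 = P % 4 := by
  have hrec : ∀ n, lucasV P Q (n + 2) = P * lucasV P Q (n + 1) - Q * lucasV P Q n := fun n => rfl
  have key : ∀ u v p q u' v' : ℤ, p % 2 = 1 → q % 2 = 1 → u % 4 = 2 → v % 4 = p % 4 →
      u' = p * (p * (p * (p * (p * v - q * u) - q * v) - q * (p * v - q * u))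
        - q * (p * (p * v - q * u) - q * v))
        - q * (p * (p * (p * v - q * u) - q * v) - q * (p * v - q * u)) →
      v' = p * u' - q * (p * (p * (p * (p * v - q * u) - q * v) - q * (p * v - q * u))
        - q * (p * (p * v - q * u) - q * v)) →
      u' % 4 = 2 ∧ v' % 4 = p % 4 := by
    intro u v p q u' v' hp hq hu hv hu' hv'
    have hp4 : p % 4 = 1 ∨ p % 4 = 3 := by omega
    have hq4 : q % 4 = 1 ∨ q % 4 = 3 := by omega
    have hu'' : u' % 4 = 2 := by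
      rw [hu']
      rcases hp4 with h1 | h1 <;> rcases hq4 with h2 | h2 <;>
        simp [Int.sub_emod, Int.mul_emod, h1, h2, hu, hv]
    refine ⟨hu'', ?_⟩
    rw [hv']
    rcases hp4 with h1 | h1 <;> rcases hq4 with h2 | h2 <;>
      simp [Int.sub_emod, Int.mul_emod, h1, h2, hu, hv, hu'']
  induction k with
  | zero => simp [lucasV]
  | succ k ih =>
    have e2 := hrec (6 * k)
    have e3 := hrec (6 * k + 1)
    have e4 := hrec (6 * k + 2)
    have e5 := hrec (6 * k + 3)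
    have e6 := hrec (6 * k + 4)
    have e7 := hrec (6 * k + 5)
    have a6 : 6 * (k + 1) = 6 * k + 4 + 2 := by ring
    have a7 : 6 * (k + 1) + 1 = 6 * k + 5 + 2 := by ring
    rw [a6, show 6 * k + 4 + 2 + 1 = 6 * k + 5 + 2 by ring]
    apply key (lucasV P Q (6 * k)) (lucasV P Q (6 * k + 1)) P Q _ _ (Int.odd_iff.mp hP)
      (Int.odd_iff.mp hQ) ih.1 ih.2
    · rw [e6, show 6 * k + 4 + 1 = 6 * k + 3 + 2 by ring, e5, show 6 * k + 3 + 1 = 6 * k + 2 + 2 by ring,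
        e4, show 6 * k + 2 + 1 = 6 * k + 1 + 2 by ring, e3, show 6 * k + 1 + 1 = 6 * k + 2 by ring, e2]
    · rw [e7, show 6 * k + 5 + 1 = 6 * k + 4 + 2 by ring, show 6 * k + 5 = 6 * k + 3 + 2 by ring, e5,
        show 6 * k + 3 + 1 = 6 * k + 2 + 2 by ring,
        e4, show 6 * k + 2 + 1 = 6 * k + 1 + 2 by ring, e3, show 6 * k + 1 + 1 = 6 * k + 2 by ring, e2]

theorem not_powerful_of_mod_four {m : ℤ} (hm : m % 4 = 2) : ¬ IsPowerful m := by
  intro h
  have h4 := h.2 2 Nat.prime_two (by push_cast; omega)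
  have e : ((2 : ℕ) : ℤ) ^ 2 = 4 := by norm_num
  rw [e] at h4
  omega

theorem three_dvd (P Q : ℤ) (hP : Odd P) (hQ : Odd Q) (n : ℕ) (hn : 3 ∣ n)
    (h : IsPowerful (lucasV P Q n)) : Odd n ∧ Q % 4 = 3 := by
  obtain ⟨j, rfl⟩ := hn
  rcases Nat.even_or_odd j with hj | hj
  · exfalso
    obtain ⟨k, hk⟩ := hj
    have : 3 * j = 6 * k := by omega
    rw [this] at h
    exact not_powerful_of_mod_four (mod_four P Q hP hQ k).1 h
  · obtain ⟨k, hk⟩ := hj
    have e : 3 * j = 6 * k + 3 := by omega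
    rw [e] at h ⊢
    refine ⟨⟨3 * k + 1, by ring⟩, ?_⟩
    by_contra hQ3
    have hQ1 : Q % 4 = 1 := by
      have := Int.odd_iff.mp hQ
      omega
    obtain ⟨h0, h1⟩ := mod_four P Q hP hQ k
    have h2 : lucasV P Q (6 * k + 3) = P * (P * lucasV P Q (6 * k + 1) - Q * lucasV P Q (6 * k))
        - Q * lucasV P Q (6 * k + 1) := rfl
    refine not_powerful_of_mod_four ?_ h
    have hP4 : P % 4 = 1 ∨ P % 4 = 3 := by
      have := Int.odd_iff.mp hP
      omega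
    rw [h2]
    rcases hP4 with h3 | h3 <;> simp [Int.sub_emod, Int.mul_emod, h0, h1, h3, hQ1]

/-- **Local restrictions on powerful companion Lucas numbers.**  For coprime `P, Q`: if
`P ≡ 2 mod 4` then no `V_n` with `n ≥ 1` is powerful; and whenever `V_n` (`n ≥ 1`) is powerful, then
`P` even forces `n` odd and `4 ∣ P`, `P, Q` odd and `3 ∣ n` force `n` odd and `Q ≡ 3 mod 4`, and `n`
odd forces `p ∣ n` for every prime `p` dividing `P` exactly once. -/
theorem result (P Q : ℤ) (hPQ : IsCoprime P Q) :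
    (P % 4 = 2 → {n : ℕ | 1 ≤ n ∧ IsPowerful (lucasV P Q n)} = ∅) ∧
    ∀ n : ℕ, 1 ≤ n → IsPowerful (lucasV P Q n) →
      (Even P → Odd n ∧ P % 4 = 0) ∧
      (Odd P → Odd Q → 3 ∣ n → Odd n ∧ Q % 4 = 3) ∧
      (Odd n → ∀ p : ℕ, p.Prime → (p : ℤ) ∣ P → ¬ (p : ℤ) ^ 2 ∣ P → p ∣ n) := by
  have key : ∀ n : ℕ, IsPowerful (lucasV P Q n) → (Even P → Odd n ∧ P % 4 = 0) := by
    intro n h hP
    have hn : Odd n := by
      rw [← Nat.not_even_iff_odd]
      intro hn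
      exact even_index P Q hPQ n hn h hP.two_dvd
    refine ⟨hn, ?_⟩
    by_contra hc
    have h2 : (2 : ℤ) ∣ P := hP.two_dvd
    have := odd_index P Q hPQ n hn h 2 Nat.prime_two (by exact_mod_cast h2) (by
      have e : ((2 : ℕ) : ℤ) ^ 2 = 4 := by norm_num
      rw [e]; omega)
    obtain ⟨k, hk⟩ := hn
    omega
  refine ⟨?_, ?_⟩
  · intro hP
    ext n
    simp only [Set.mem_setOf_eq, Set.mem_empty_iff_false, iff_false, not_and]
    intro _ h
    have := (key n h (Int.even_iff.mpr (by omega))).2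
    omega
  · intro n _ h
    exact ⟨key n h, fun hP hQ hn => three_dvd P Q hP hQ n hn h,
      fun hn p hp hp1 hp2 => odd_index P Q hPQ n hn h p hp hp1 hp2⟩

end Pool.Agent.Results.MP_cb8e45_nt.CompanionLocal
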